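import Pool.Agent.Run7.h245.DI.Iface
import Pool.Agent.Run7.h228.SR.Com
import Pool.Agent.Run7.h366.SR.GAT
import Pool.Agent.Run7.h576.SR.HEN
import Pool.Agent.N352.PF.Dsc

/-!
# Project DI (helper245), piece SQE: `u ^ 2 (1 + 8 z)` is a square over the completion
(adapted from `Run7/h228/SR/SQ2.lean`)
-/

set_option autoImplicit false
set_option linter.all false

open Polynomial IsDedekindDomain Matrix NumberField
open scoped Classical

namespace Pool.Agent.Run7.h437.DI

open Pool.Agent.N783.PF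
open Pool.Agent.Run7.h245.SR Pool.Agent.Run7.h228.SR
open Pool.Agent.Run7.h245.DI (S_SQE)

theorem sqe : S_SQE := by
  intro g F L _ _ _ _ _ f θ hg hG w hw2 hsep h₀ u z hz hint
  have h2 : S_HENQ := _root_.Run7.h576.SR.HEN.henq _root_.Run7.h576.SR.HEN.hen
  obtain ⟨m, hm, Z, hZ⟩ := Pool.Agent.Run7.h366.SR.gat g F L f θ hG w
    (dsc_not w Pool.Agent.N352.PF.dscT hg hG.mon hG.deg hsep) z hint
  obtain ⟨U, hU⟩ := exists_pol hG u
  -- the unit `m`
  obtain ⟨M, hM⟩ := io_unit w hm
  set M' : w.adicCompletionIntegers F := ((M⁻¹ : (w.adicCompletionIntegers F)ˣ) :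
    w.adicCompletionIntegers F) with hM'
  have hMM : io w m * M' = 1 := by rw [← hM, hM', Units.mul_inv]
  -- the quadratic equation
  obtain ⟨y, hy⟩ := h2 F w (pR w f) 1 (-(2 * C M' * pR w Z)) 0 1 0 0 (hG.mon.map _) (by
    intro i
    have e : (0 : (w.adicCompletionIntegers F)[X]) ^ 2 + 1 * 0 + -(2 * C M' * pR w Z) - pR w f * 0 =
        C (io w 2 * (-M')) * pR w Z := by
      rw [map_mul, map_ofNat, map_neg, map_ofNat]
      ring
    rw [e, coeff_C_mul]
    exact Ideal.mul_mem_right _ _ (Ideal.mul_mem_right _ _ (io_mem w hw2))) (by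
    intro i
    have e : (2 * (0 : (w.adicCompletionIntegers F)[X]) + 1) * 1 - 1 - pR w f * 0 = 0 := by ring
    rw [e, coeff_zero]
    exact Ideal.zero_mem _)
  -- the relation over `F`
  have hd : fF f ∣ C (m : F) * h₀ - U ^ 2 * (C (m : F) + 8 * fF Z) := by
    apply dvd_of_aeval hG
    rw [map_sub, map_mul, map_mul, aeval_C, map_pow, map_add, aeval_C, map_mul, hU, ← hZ, hz,
      map_ofNat]
    ring
  have hdK : pK w (fF f) ∣ C (algebraMap F (w.adicCompletion F) (m : F)) * pK w h₀ -
      pK w U ^ 2 * (C (algebraMap F (w.adicCompletion F) (m : F)) + 8 * pK w (fF Z)) := by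
    have := Polynomial.map_dvd (algebraMap F (w.adicCompletion F)) hd
    simpa [Polynomial.map_sub, Polynomial.map_mul, Polynomial.map_add, Polynomial.map_pow,
      Polynomial.map_ofNat] using this
  have hyK : pK w (fF f) ∣ pRK w y ^ 2 + pRK w y -
      2 * C (algebraMap (w.adicCompletionIntegers F) (w.adicCompletion F) M') * pK w (fF Z) := by
    have := Polynomial.map_dvd (algebraMap (w.adicCompletionIntegers F) (w.adicCompletion F)) hy
    rw [← pRK_pR, ← pRK_pR]
    convert this using 1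
    simp only [Polynomial.map_sub, Polynomial.map_mul, Polynomial.map_add, Polynomial.map_pow,
      Polynomial.map_ofNat, Polynomial.map_neg, Polynomial.map_one, Polynomial.map_C]
    ring
  set μ : w.adicCompletion F := algebraMap F (w.adicCompletion F) (m : F) with hμ
  set μ' : w.adicCompletion F := algebraMap (w.adicCompletionIntegers F) (w.adicCompletion F) M'
    with hμ'
  have hμμ : μ * μ' = 1 := by
    have := congrArg (algebraMap (w.adicCompletionIntegers F) (w.adicCompletion F)) hMM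
    rw [map_mul, map_one] at this
    exact this
  have hC : (C μ : (w.adicCompletion F)[X]) * C μ' = 1 := by rw [← C_mul, hμμ, C_1]
  refine ⟨pK w U * (1 + 2 * pRK w y), ?_⟩
  obtain ⟨p, hp⟩ := hdK
  obtain ⟨q, hq⟩ := hyK
  refine ⟨C μ' * p - 4 * pK w U ^ 2 * q, ?_⟩
  have e : pK w h₀ - (pK w U * (1 + 2 * pRK w y)) ^ 2 =
      C μ' * (C μ * pK w h₀ - pK w U ^ 2 * (C μ + 8 * pK w (fF Z))) -
      4 * pK w U ^ 2 * (pRK w y ^ 2 + pRK w y - 2 * C μ' * pK w (fF Z)) +
      (1 - C μ * C μ') * (pK w h₀ - pK w U ^ 2) := by ring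
  rw [e, hp, hq, hC]
  ring

end Pool.Agent.Run7.h437.DI
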