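import Pool.Agent.Run7.h245.DI.Iface
import Pool.Agent.Cov.PNT

/-!
# Project DI (helper245), piece WIN2: primes `1 mod 8` in two short intervals
-/

set_option autoImplicit false
set_option linter.all false

open ArithmeticFunction ArithmeticFunction.vonMangoldt Filter Topology

namespace Pool.Agent.Run7.h437.DI

open Pool.Agent.Run7.h245.DI

/-- The summatory function. -/
noncomputable def Psi (x : ℝ) : ℝ := ∑ k ∈ Finset.Icc 1 ⌊x⌋₊, residueClass (1 : ZMod 8) k

theorem psi_lim : Tendsto (fun x : ℝ => Psi x / x) atTop (𝓝 (((8 : ℕ).totient : ℝ)⁻¹)) :=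
  Pool.Agent.Cov.PNT.pnt_residueClass (q := 8) (a := 1) isUnit_one

theorem err_lim (n : ℕ) : Tendsto (fun x : ℝ => ((n : ℝ) * Real.log x + 2 * √x * Real.log x) / x)
    atTop (𝓝 0) := by
  have h1 : Tendsto (fun x : ℝ => Real.log x / x) atTop (𝓝 0) := by
    have := Real.isLittleO_log_id_atTop.tendsto_div_nhds_zero
    exact this
  have h2 : Tendsto (fun x : ℝ => Real.log x / √x) atTop (𝓝 0) := by
    have := (isLittleO_log_rpow_atTop (r := 1 / 2) (by norm_num)).tendsto_div_nhds_zero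
    refine this.congr fun x => ?_
    rw [Real.sqrt_eq_rpow]
  have h3 := (h1.const_mul (n : ℝ)).add (h2.const_mul 2)
  simp only [mul_zero, add_zero] at h3
  refine h3.congr' ?_
  filter_upwards [eventually_gt_atTop 0] with x hx
  have hs : √x ≠ 0 := (Real.sqrt_pos.mpr hx).ne'
  have hss : √x * √x = x := Real.mul_self_sqrt hx.le
  have e : Real.log x / √x = √x * Real.log x / x := by
    rw [div_eq_div_iff hs hx.ne']
    calc Real.log x * x = Real.log x * (√x * √x) := by rw [hss]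
      _ = √x * Real.log x * √x := by ring
  rw [e]
  ring

theorem window_le {x X : ℝ} (hx : 1 ≤ x) (hX : x ≤ X) :
    Psi X - Psi x ≤ (((Finset.Ioc ⌊x⌋₊ ⌊X⌋₊).filter fun k => k.Prime ∧ k % 8 = 1).card : ℝ) *
      Real.log X + 2 * √X * Real.log X := by
  have hX1 : 1 ≤ X := hx.trans hX
  have hlX : 0 ≤ Real.log X := Real.log_nonneg hX1
  have hfl : ⌊x⌋₊ ≤ ⌊X⌋₊ := Nat.floor_le_floor hX
  have h1 : Psi X - Psi x = ∑ k ∈ Finset.Ioc ⌊x⌋₊ ⌊X⌋₊, residueClass (1 : ZMod 8) k := by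
    unfold Psi
    have e : ∀ n : ℕ, Finset.Icc 1 n = Finset.Ioc 0 n := fun n => by
      ext k
      simp only [Finset.mem_Icc, Finset.mem_Ioc]
      omega
    rw [e, e, ← Finset.sum_Ioc_consecutive _ (Nat.zero_le _) hfl]
    ring
  have h2 : ∀ k ∈ Finset.Ioc ⌊x⌋₊ ⌊X⌋₊, residueClass (1 : ZMod 8) k ≤
      (if k.Prime ∧ k % 8 = 1 then Real.log X else 0) + (if ¬ k.Prime then vonMangoldt k else 0) := by
    intro k hk
    rw [Finset.mem_Ioc] at hk
    by_cases hp : k.Prime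
    · rw [if_neg (not_not.mpr hp), add_zero]
      by_cases h8 : k % 8 = 1
      · rw [if_pos ⟨hp, h8⟩]
        refine (residueClass_le _ _).trans ?_
        rw [vonMangoldt_apply_prime hp]
        refine Real.log_le_log (by exact_mod_cast hp.pos) ?_
        exact (Nat.le_floor_iff (by linarith)).mp hk.2
      · rw [if_neg (fun h => h8 h.2), residueClass, Set.indicator_of_notMem]
        intro h
        apply h8
        have h1 : ((k : ℕ) : ZMod 8) = ((1 : ℕ) : ZMod 8) := by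
          rw [Nat.cast_one]
          exact h
        rw [ZMod.natCast_eq_natCast_iff] at h1
        exact h1
    · rw [if_neg (fun h => hp h.1), if_pos hp, zero_add]
      exact residueClass_le _ _
  have h3 : ∑ k ∈ Finset.Ioc ⌊x⌋₊ ⌊X⌋₊, (if ¬ k.Prime then vonMangoldt k else 0)
      ≤ 2 * √X * Real.log X := by
    refine le_trans ?_ (Chebyshev.psi_sub_theta_le hX1)
    rw [Chebyshev.psi_sub_theta_eq_sum_not_prime, Finset.sum_filter]
    refine Finset.sum_le_sum_of_subset_of_nonneg (Finset.Ioc_subset_Ioc_left (Nat.zero_le _)) ?_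
    intro k _ _
    split_ifs
    · exact le_rfl
    · exact vonMangoldt_nonneg
  rw [h1]
  refine (Finset.sum_le_sum h2).trans ?_
  rw [Finset.sum_add_distrib]
  refine add_le_add (le_of_eq ?_) h3
  rw [← Finset.sum_filter, Finset.sum_const, nsmul_eq_mul]

theorem many (ρ : ℝ) (hρ : 0 < ρ) (n : ℕ) : ∀ᶠ x : ℝ in atTop, ∃ T : Finset ℕ, T.card = n ∧
    ∀ q ∈ T, q.Prime ∧ q % 8 = 1 ∧ x < q ∧ (q : ℝ) ≤ (1 + ρ) * x := by
  have hr : 0 < 1 + ρ := by linarith
  have hX : Tendsto (fun x : ℝ => (1 + ρ) * x) atTop atTop := tendsto_id.const_mul_atTop hr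
  set δ : ℝ := (((8 : ℕ).totient : ℝ)⁻¹) with hδ
  have hδ0 : 0 < δ := by
    rw [hδ]
    have : 0 < (8 : ℕ).totient := Nat.totient_pos.mpr (by norm_num)
    positivity
  have h1 : Tendsto (fun x : ℝ => (1 + ρ) * (Psi ((1 + ρ) * x) / ((1 + ρ) * x)) - Psi x / x -
      (1 + ρ) * (((n : ℝ) * Real.log ((1 + ρ) * x) + 2 * √((1 + ρ) * x) * Real.log ((1 + ρ) * x)) /
        ((1 + ρ) * x))) atTop (𝓝 ((1 + ρ) * δ - δ - (1 + ρ) * 0)) :=
    (((psi_lim.comp hX).const_mul _).sub psi_lim).sub (((err_lim n).comp hX).const_mul _)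
  have h2 : 0 < (1 + ρ) * δ - δ - (1 + ρ) * 0 := by
    have : (1 + ρ) * δ - δ - (1 + ρ) * 0 = ρ * δ := by ring
    rw [this]
    positivity
  filter_upwards [h1.eventually (lt_mem_nhds h2), eventually_ge_atTop 1] with x hx hx1
  have hx0 : 0 < x := by linarith
  set X := (1 + ρ) * x with hXdef
  have hXx : x ≤ X := by nlinarith
  have hX0 : 0 < X := by positivity
  have h3 : (n : ℝ) * Real.log X + 2 * √X * Real.log X < Psi X - Psi x := by
    have e1 : (1 + ρ) * (Psi X / X) = Psi X / x := by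
      rw [hXdef]
      field_simp
    have e2 : (1 + ρ) * (((n : ℝ) * Real.log X + 2 * √X * Real.log X) / X)
        = ((n : ℝ) * Real.log X + 2 * √X * Real.log X) / x := by
      rw [mul_div_assoc', div_eq_div_iff hX0.ne' hx0.ne', hXdef]
      ring
    rw [e1, e2, ← sub_div, ← sub_div] at hx
    have := (div_pos_iff_of_pos_right hx0).mp hx
    linarith
  have h4 := window_le hx1 hXx
  have h5 : (n : ℝ) * Real.log X <
      (((Finset.Ioc ⌊x⌋₊ ⌊X⌋₊).filter fun k => k.Prime ∧ k % 8 = 1).card : ℝ) * Real.log X := by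
    linarith
  have hlX : 0 ≤ Real.log X := Real.log_nonneg (hx1.trans hXx)
  have h6 : n ≤ ((Finset.Ioc ⌊x⌋₊ ⌊X⌋₊).filter fun k => k.Prime ∧ k % 8 = 1).card := by
    have := lt_of_mul_lt_mul_right h5 hlX
    exact_mod_cast this.le
  obtain ⟨T, hT, hTc⟩ := Finset.exists_subset_card_eq h6
  refine ⟨T, hTc, fun q hq => ?_⟩
  have hq' := hT hq
  rw [Finset.mem_filter, Finset.mem_Ioc] at hq'
  refine ⟨hq'.2.1, hq'.2.2, (Nat.floor_lt hx0.le).mp hq'.1.1, ?_⟩
  exact (Nat.le_floor_iff hX0.le).mp hq'.1.2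

theorem win2 : S_WIN2 := by
  intro ρ c hρ hc n Y₀
  have hc0 : 0 < c := by linarith
  have hcX : Tendsto (fun y : ℝ => c * y) atTop atTop := tendsto_id.const_mul_atTop hc0
  obtain ⟨y, ⟨⟨T₁, hT₁, h1⟩, T₂, hT₂, h2⟩, hy⟩ :=
    (((many ρ hρ n).and (hcX.eventually (many ρ hρ n))).and
      (eventually_ge_atTop (Y₀ : ℝ))).exists
  exact ⟨y, T₁, T₂, hy, hT₁, hT₂, h1, h2⟩

end Pool.Agent.Run7.h437.DI
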